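import Pool.Agent.Y828.TK.Inf

/-!
# Countably infinite level sets of the Takagi function in every interval

The starting result `NonDyadicCountable` gives one ordinate, `49 / 2050`, which is not the value of the
Takagi function at a dyadic rational and whose level set is countably infinite. Here every nonempty
open subinterval of `(0, 2/3)` contains continuum many such ordinates.

`phi`, `T` (Takagi function on the real line) and `levelSet y = {x ∈ [0,1] : T x = y}` are those of
the file `NonDyadicCountable`.

Proof: let the binary digits of `t` be an arbitrary concatenation of the two blocks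
`P = 000100011110000100011110` and `Q = 000110011110000100011110`. All sets
`N j y = {x ∈ [0,1] : T x + j x = y}` with `2 ^ m y` congruent to `t` modulo `1` are countable
(`Pool.Agent.Y828.TK.cnt_dy`): the transitions of the pairs `(j, integer part of 2 ^ m y)` with `j ≤ 3`
stay in a finite list of 2358 states with a rank function (`Tab`), and for `j ≥ 4` there is only one
transition, because `t` has no five consecutive zeros. The set `N 2 t` is infinite (`N2_infinite`), and
a scaled copy of it is contained in the level set of `(K + t) / 2 ^ m` for suitable `K` and `m`, which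
can be prescribed so that this ordinate is in the given interval (`exists_K`).
-/

set_option autoImplicit false

namespace Pool.Agent.Results.MP_4a5b11_an.EveryInterval

open Set Cardinal Pool.Agent.Results.MP_4a5b11_an.NonDyadicCountable

/-- Every nonempty open interval `(a, b)` contained in `[0, 2/3]` contains continuum many ordinates `y`
whose level set is countably infinite and which are different from `T x` for every dyadic rational
`x ∈ [0,1]`. -/
theorem result (a b : ℝ) (ha : 0 ≤ a) (hab : a < b) (hb : b ≤ 2 / 3) :
    #{y : ℝ | y ∈ Ioo a b ∧ (levelSet y).Countable ∧ (levelSet y).Infinite ∧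
      ∀ (m k : ℕ), k ≤ 2 ^ m → T ((k : ℝ) / 2 ^ m) ≠ y} = 𝔠 := by
  obtain ⟨K, m, hK⟩ := Pool.Agent.Y828.TK.exists_K a b ha hab hb
  apply le_antisymm
  · calc #{y : ℝ | y ∈ Ioo a b ∧ (levelSet y).Countable ∧ (levelSet y).Infinite ∧
        ∀ (m k : ℕ), k ≤ 2 ^ m → T ((k : ℝ) / 2 ^ m) ≠ y} ≤ #ℝ := mk_set_le _
      _ = 𝔠 := mk_real
  · have hcard : #(ℕ → Bool) = 𝔠 := by
      simp
    rw [← hcard]
    refine mk_le_of_injective (f := fun ω : ℕ → Bool =>
      (⟨((K : ℝ) + Pool.Agent.Y828.TK.tl ω 0) / 2 ^ m, ?_⟩ : {y : ℝ | y ∈ Ioo a b ∧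
        (levelSet y).Countable ∧ (levelSet y).Infinite ∧
        ∀ (m k : ℕ), k ≤ 2 ^ m → T ((k : ℝ) / 2 ^ m) ≠ y})) ?_
    · obtain ⟨h1, h2, h3⟩ := hK ω
      refine ⟨⟨h1, h2⟩, ?_, ?_, ?_⟩
      · rw [levelSet_eq]
        exact Pool.Agent.Y828.TK.cnt_dy ω m 0 K
      · rw [levelSet_eq]
        exact h3
      · intro p k _ h
        obtain ⟨L, hL⟩ := T_dyadic p (k : ℤ)
        rw [Int.cast_natCast] at hL
        rw [hL] at h
        exact Pool.Agent.Y828.TK.not_dy ω K L m p h.symm
    · intro ω ω' h
      apply Pool.Agent.Y828.TK.tl_injective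
      have h' : ((K : ℝ) + Pool.Agent.Y828.TK.tl ω 0) / 2 ^ m =
          ((K : ℝ) + Pool.Agent.Y828.TK.tl ω' 0) / 2 ^ m := by
        have := congrArg Subtype.val h
        exact this
      have hm : (0:ℝ) < 2 ^ m := by positivity
      have h4 := (div_left_inj' hm.ne').1 h'
      show Pool.Agent.Y828.TK.tl ω 0 = Pool.Agent.Y828.TK.tl ω' 0
      linarith

end Pool.Agent.Results.MP_4a5b11_an.EveryInterval
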